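import Pool.Agent.P.MP_e75014_co.Greedy

set_option autoImplicit false

namespace Pool.Agent.Results.MP_e75014_co.Unbounded

/-- Alice, moving first, has a winning strategy in the colouring game with colours `0, …, k-1`:
there is a set `W` of positions (player to move, `true` for Alice; current colouring) containing
the start in which Alice can keep the play until every vertex is coloured. -/
def AliceWinsColoring {V : Type} [DecidableEq V] (G : SimpleGraph V) (k : ℕ) : Prop :=
  ∃ W : Bool → (V → Option ℕ) → Prop, W true (fun _ => none) ∧
    ∀ (t : Bool) (c : V → Option ℕ), W t c →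
      (∀ v, c v ≠ none) ∨
      (t = true ∧ ∃ (v : V) (a : ℕ), c v = none ∧ a < k ∧
          (∀ w, G.Adj v w → c w ≠ some a) ∧
          W false (Function.update c v (some a))) ∨
      (t = false ∧
          (∃ (v : V) (a : ℕ), c v = none ∧ a < k ∧ (∀ w, G.Adj v w → c w ≠ some a)) ∧
          ∀ (v : V) (a : ℕ), c v = none → a < k → (∀ w, G.Adj v w → c w ≠ some a) →
            W true (Function.update c v (some a)))

/-- The same for the greedy colouring game: the chosen vertex gets the least colour absent from
its neighbourhood, and Alice loses if that colour is not below `k`. -/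
def AliceWinsGreedy {V : Type} [DecidableEq V] (G : SimpleGraph V) (k : ℕ) : Prop :=
  ∃ W : Bool → (V → Option ℕ) → Prop, W true (fun _ => none) ∧
    ∀ (t : Bool) (c : V → Option ℕ), W t c →
      (∀ v, c v ≠ none) ∨
      (t = true ∧ ∃ (v : V) (a : ℕ), c v = none ∧ a < k ∧
          (∀ w, G.Adj v w → c w ≠ some a) ∧
          (∀ b, b < a → ∃ w, G.Adj v w ∧ c w = some b) ∧
          W false (Function.update c v (some a))) ∨
      (t = false ∧
          ∀ (v : V) (a : ℕ), c v = none → (∀ w, G.Adj v w → c w ≠ some a) →
            (∀ b, b < a → ∃ w, G.Adj v w ∧ c w = some b) →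
            a < k ∧ W true (Function.update c v (some a)))

/-- The game Grundy number is not bounded by any function of the game chromatic number: there
are finite graphs with game chromatic number at most 7 and game Grundy number above any `m`. -/
theorem result (m : ℕ) :
    ∃ (n : ℕ) (G : SimpleGraph (Fin n × Fin 8)),
      AliceWinsColoring G 7 ∧ ∀ k, k ≤ m → ¬ AliceWinsGreedy G k :=
  ⟨m + 2, Pool.Agent.P.MP_e75014_co.starCompl (m + 2),
    Pool.Agent.P.MP_e75014_co.alice_normal (by omega),
    fun _ hk => Pool.Agent.P.MP_e75014_co.bob_greedy (by omega)⟩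

end Pool.Agent.Results.MP_e75014_co.Unbounded
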